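import Mathlib

set_option autoImplicit false

/-!
# Monotone operators from a real Banach space `X` to its dual, types (BR) and (D)

An operator is identified with its graph, a subset of `X × X*`.
-/

namespace Pool.Agent.Work.MP_6c2b6a_an

open Filter Topology

variable {X : Type*} [NormedAddCommGroup X] [NormedSpace ℝ X]

/-- `A` is monotone. -/
def IsMonotone (A : Set (X × StrongDual ℝ X)) : Prop :=
  ∀ p ∈ A, ∀ q ∈ A, 0 ≤ (p.2 - q.2) (p.1 - q.1)

/-- `A` is maximally monotone. -/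
def IsMaxMonotone (A : Set (X × StrongDual ℝ X)) : Prop :=
  IsMonotone A ∧ ∀ B : Set (X × StrongDual ℝ X), IsMonotone B → A ⊆ B → B ⊆ A

/-- `A` is of type (BR) for the norm `N` of `X` and the norm `N'` of `X*`: if the infimum of
`⟨x - a, x* - a*⟩` over `A` is larger than `-α β`, then some `(b, b*)` in `A` has `N (x - b) < α` and
`N' (x* - b*) < β`. -/
def TypeBR (N : X → ℝ) (N' : StrongDual ℝ X → ℝ) (A : Set (X × StrongDual ℝ X)) : Prop :=
  ∀ (x : X) (xs : StrongDual ℝ X) (α β : ℝ), 0 < α → 0 < β →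
    (∃ c : ℝ, -(α * β) < c ∧ ∀ p ∈ A, c ≤ (xs - p.2) (x - p.1)) →
    ∃ p ∈ A, N (x - p.1) < α ∧ N' (xs - p.2) < β

/-- `N` is an equivalent norm. -/
def IsEquivNorm (N : Seminorm ℝ X) : Prop :=
  (∃ m : ℝ, 0 < m ∧ ∀ x, m * ‖x‖ ≤ N x) ∧ ∃ M : ℝ, ∀ x, N x ≤ M * ‖x‖

/-- The dual norm of `N`: the supremum of `|f x|` over the `x` with `N x ≤ 1`. -/
noncomputable def dualNorm (N : Seminorm ℝ X) (f : StrongDual ℝ X) : ℝ :=
  sSup {r | ∃ x, N x ≤ 1 ∧ r = |f x|}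

/-- `A` is of type (D): if `(x**, x*)` satisfies `⟨a - x**, a* - x*⟩ ≥ 0` for all `(a, a*)` in `A`, then a
bounded net (here: filter) in `A` converges to `(x**, x*)`, weak* in the first and in norm in the second
component. -/
def TypeD (A : Set (X × StrongDual ℝ X)) : Prop :=
  ∀ (Φ : StrongDual ℝ (StrongDual ℝ X)) (xs : StrongDual ℝ X),
    (∀ p ∈ A, 0 ≤ (p.2 - xs) p.1 - Φ (p.2 - xs)) →
    ∃ F : Filter (X × StrongDual ℝ X), F.NeBot ∧ (∃ R : ℝ, ∀ᶠ p in F, p ∈ A ∧ ‖p‖ ≤ R) ∧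
      (∀ f : StrongDual ℝ X, Tendsto (fun p => f p.1) F (𝓝 (Φ f))) ∧ Tendsto (fun p => p.2) F (𝓝 xs)

end Pool.Agent.Work.MP_6c2b6a_an
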