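import Mathlib

set_option autoImplicit false

/-!
# Sequences of James type in nonreflexive Banach spaces
-/

namespace Pool.Agent.Work.MP_6c2b6a_an

/-- Separation of a point from a closed subspace. -/
theorem sep_aux {E : Type*} [NormedAddCommGroup E] [NormedSpace ℝ E] (N : Submodule ℝ E)
    (hN : IsClosed (N : Set E)) (x : E) :
    ∃ ψ : E →L[ℝ] ℝ, ‖ψ‖ ≤ 1 ∧ (∀ y ∈ N, ψ y = 0) ∧ ψ x = ‖N.mkQ x‖ := by
  have : IsClosed (N : Set E) := hN
  obtain ⟨g, hg1, hg2⟩ := exists_dual_vector'' ℝ (N.mkQ x)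
  refine ⟨g.comp N.mkQL, ?_, ?_, ?_⟩
  · refine ContinuousLinearMap.opNorm_le_bound _ zero_le_one ?_
    intro y
    calc ‖(g.comp N.mkQL) y‖ = ‖g (N.mkQ y)‖ := by simp
      _ ≤ ‖g‖ * ‖N.mkQ y‖ := g.le_opNorm _
      _ ≤ 1 * ‖y‖ := by
        apply mul_le_mul hg1 _ (norm_nonneg _) zero_le_one
        exact Submodule.Quotient.norm_mk_le N y
  · intro y hy
    have : N.mkQ y = 0 := by simpa using hy
    simp only [ContinuousLinearMap.comp_apply, Submodule.mkQL_apply, this, map_zero]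
  · simp only [ContinuousLinearMap.comp_apply, Submodule.mkQL_apply]
    simpa using hg2

/-- Helly's theorem on finitely many functionals. -/
theorem helly_aux {E : Type*} [NormedAddCommGroup E] [NormedSpace ℝ E] {ι : Type*} [Finite ι]
    (φ : ι → (E →L[ℝ] ℝ)) (Φ : (E →L[ℝ] ℝ) →L[ℝ] ℝ) (C : ℝ) (hC : ‖Φ‖ < C) :
    ∃ x : E, ‖x‖ ≤ C ∧ ∀ i, φ i x = Φ (φ i) := by
  classical
  have := Fintype.ofFinite ι
  -- Step A
  obtain ⟨x₀, hx₀⟩ : ∃ x₀ : E, ∀ i, φ i x₀ = Φ (φ i) := by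
    let T : E →ₗ[ℝ] (ι → ℝ) := LinearMap.pi (fun i => (φ i : E →ₗ[ℝ] ℝ))
    by_contra hcon
    have hnot : (fun i => Φ (φ i)) ∉ LinearMap.range T := by
      rintro ⟨x₀, hx₀⟩
      exact hcon ⟨x₀, fun i => congrFun hx₀ i⟩
    obtain ⟨l, hl1, hl2⟩ := Submodule.exists_le_ker_of_notMem hnot
    have hexp : ∀ a : ι → ℝ, l a = ∑ i, a i * l (Pi.single i 1) := by
      intro a
      conv_lhs => rw [pi_eq_sum_univ' a]
      simp [map_sum]
    have hzero : (∑ i, l (Pi.single i 1) • φ i) = 0 := by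
      ext y
      have h1 : T y ∈ LinearMap.ker l := hl2 ⟨y, rfl⟩
      have h2 : l (T y) = 0 := h1
      rw [hexp] at h2
      simpa [T, mul_comm, sum_apply] using h2
    apply hl1
    rw [hexp]
    have := congrArg Φ hzero
    simpa [map_sum, mul_comm] using this
  -- Step B
  let N : Submodule ℝ E := ⨅ i, LinearMap.ker (φ i : E →ₗ[ℝ] ℝ)
  have hN : IsClosed (N : Set E) := by
    rw [Submodule.coe_iInf]
    exact isClosed_iInter fun i => (φ i).isClosed_ker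
  obtain ⟨ψ, hψ1, hψ2, hψ3⟩ := sep_aux N hN x₀
  have hspan : (ψ : E →ₗ[ℝ] ℝ) ∈ Submodule.span ℝ (Set.range (fun i => (φ i : E →ₗ[ℝ] ℝ))) := by
    apply mem_span_of_iInf_ker_le_ker
    intro y hy
    exact hψ2 y hy
  obtain ⟨c, hc⟩ := (Submodule.mem_span_range_iff_exists_fun ℝ).1 hspan
  have hψ : ψ = ∑ i, c i • φ i := by
    ext y
    have := congrArg (fun L : E →ₗ[ℝ] ℝ => L y) hc
    simpa [sum_apply] using this.symm
  have hval : ψ x₀ = Φ ψ := by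
    rw [hψ]
    simp [map_sum, hx₀]
  have hle : ‖N.mkQ x₀‖ ≤ ‖Φ‖ := by
    rw [← hψ3, hval]
    calc Φ ψ ≤ ‖Φ ψ‖ := le_abs_self _
      _ ≤ ‖Φ‖ * ‖ψ‖ := Φ.le_opNorm _
      _ ≤ ‖Φ‖ * 1 := by gcongr
      _ = ‖Φ‖ := mul_one _
  have : IsClosed (N : Set E) := hN
  obtain ⟨m, hm1, hm2⟩ := Submodule.Quotient.norm_mk_lt (N.mkQ x₀) (ε := C - ‖Φ‖) (by linarith)
  refine ⟨m, by linarith, ?_⟩
  intro i
  rw [← hx₀ i]
  have : m - x₀ ∈ N := by
    exact (Submodule.Quotient.eq N).1 hm1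
  have h3 : (φ i) (m - x₀) = 0 := by
    have := (Submodule.mem_iInf _).1 this i
    exact this
  rw [map_sub] at h3
  linarith


/-- Functional equal to one at a point outside a closed subspace, vanishing on it. -/
theorem sep_one {E : Type*} [NormedAddCommGroup E] [NormedSpace ℝ E] (N : Submodule ℝ E)
    (hN : IsClosed (N : Set E)) (x : E) (hx : x ∉ N) :
    ∃ ψ : E →L[ℝ] ℝ, (∀ y ∈ N, ψ y = 0) ∧ ψ x = 1 := by
  obtain ⟨ψ, _, h1, h2⟩ := sep_aux N hN x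
  have hne : ψ x ≠ 0 := by
    rw [h2]
    intro h
    apply hx
    have hN' : IsClosed (N : Set E) := hN
    have h3 : (N.mkQ x) = 0 := norm_eq_zero.1 h
    exact (Submodule.Quotient.mk_eq_zero N).1 h3
  refine ⟨(ψ x)⁻¹ • ψ, ?_, ?_⟩
  · intro y hy
    simp [h1 y hy]
  · simp [inv_mul_cancel₀ hne]

/-- Norm bounded functionals separating an element of the dual of `E` from an isometric copy
of a complete space and vanishing at finitely many of its points. -/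
theorem stepA {X E : Type*} [NormedAddCommGroup X] [NormedSpace ℝ X] [CompleteSpace X]
    [NormedAddCommGroup E] [NormedSpace ℝ E] (J : X →ₗᵢ[ℝ] (E →L[ℝ] ℝ)) (e : E →L[ℝ] ℝ)
    (he : ∀ x : X, J x ≠ e) :
    ∃ L : ℝ, 0 < L ∧ ∀ s : Finset X, ∃ f : E, e f = 1 ∧ ‖f‖ ≤ L ∧ ∀ x ∈ s, J x f = 0 := by
  have hcl : IsClosed (Set.range J) := J.isometry.isUniformInducing.isComplete_range.isClosed
  obtain ⟨F, h1, h2⟩ := sep_one (LinearMap.range J.toLinearMap) hcl e (by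
      rintro ⟨x, hx⟩
      exact he x hx)
  refine ⟨‖F‖ + 1, by positivity, fun s => ?_⟩
  obtain ⟨f', hf'1, hf'2⟩ := helly_aux (ι := Option s)
      (fun o => Option.elim o e (fun q => J q.1)) F (‖F‖ + 1) (by linarith)
  refine ⟨f', ?_, hf'1, ?_⟩
  · have := hf'2 none
    rw [Option.elim_none, h2] at this
    exact this
  · intro x hx
    have := hf'2 (some ⟨x, hx⟩)
    rw [Option.elim_some] at this
    rw [this]
    exact h1 _ ⟨x, rfl⟩

/-- A sequence of James type in a nonreflexive Banach space. -/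
theorem james_aux {X : Type*} [NormedAddCommGroup X] [NormedSpace ℝ X] [CompleteSpace X]
    (e : (X →L[ℝ] ℝ) →L[ℝ] ℝ) (he : ∀ x : X, ∃ f : X →L[ℝ] ℝ, e f ≠ f x) :
    ∃ (x : ℕ → X) (f : ℕ → X →L[ℝ] ℝ) (K L : ℝ), 0 < K ∧ 0 < L ∧ x 0 = 0 ∧ (∀ n, ‖x n‖ ≤ K) ∧
      (∀ n, ‖f n‖ ≤ L) ∧ ∀ m n, f m (x n) = if m < n then 1 else 0 := by
  classical
  obtain ⟨L, hL, hA⟩ := stepA (NormedSpace.inclusionInDoubleDualLi (E := X) ℝ) e (by
    intro x hx
    obtain ⟨f, hf⟩ := he x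
    apply hf
    rw [← hx]
    rfl)
  have hK : 0 < ‖e‖ + 1 := by positivity
  have hstep : ∀ s : Finset ((X →L[ℝ] ℝ) × X), (∀ q ∈ s, e q.1 = 1 ∧ ‖q.1‖ ≤ L ∧
      ‖q.2‖ ≤ ‖e‖ + 1 ∧ q.1 q.2 = 1) → ∃ q' : (X →L[ℝ] ℝ) × X, (e q'.1 = 1 ∧ ‖q'.1‖ ≤ L ∧
      ‖q'.2‖ ≤ ‖e‖ + 1 ∧ q'.1 q'.2 = 1) ∧ ∀ q ∈ s, q'.1 q.2 = 0 ∧ q.1 q'.2 = 1 := by
    intro s hs
    obtain ⟨f', h1, hf'1, hf'2⟩ := hA (s.image Prod.snd)
    obtain ⟨x', hx'1, hx'2⟩ := helly_aux (ι := Option s)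
      (fun o => Option.elim o f' (fun q => q.1.1)) e (‖e‖ + 1) (by linarith)
    have h2 : f' x' = 1 := by
      have := hx'2 none
      rw [Option.elim_none, h1] at this
      exact this
    refine ⟨(f', x'), ⟨h1, hf'1, hx'1, h2⟩, ?_⟩
    intro q hq
    constructor
    · exact hf'2 q.2 (Finset.mem_image_of_mem _ hq)
    · have := hx'2 (some ⟨q, hq⟩)
      rw [Option.elim_some, (hs q hq).1] at this
      exact this
  obtain ⟨p, hp, hpr⟩ := exists_seq_of_forall_finset_exists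
    (fun q : (X →L[ℝ] ℝ) × X => e q.1 = 1 ∧ ‖q.1‖ ≤ L ∧ ‖q.2‖ ≤ ‖e‖ + 1 ∧ q.1 q.2 = 1)
    (fun q q' => q'.1 q.2 = 0 ∧ q.1 q'.2 = 1) hstep
  refine ⟨fun n => Nat.casesOn n 0 (fun k => (p k).2), fun n => (p n).1, ‖e‖ + 1, L,
    hK, hL, rfl, ?_, ?_, ?_⟩
  · intro n
    cases n with
    | zero =>
      change ‖(0 : X)‖ ≤ ‖e‖ + 1
      rw [norm_zero]
      exact hK.le
    | succ k => exact (hp k).2.2.1
  · intro n
    exact (hp n).2.1
  · intro m n
    cases n with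
    | zero => simp
    | succ k =>
      simp only
      rcases lt_trichotomy m k with h | h | h
      · rw [if_pos (by omega)]
        exact (hpr m k h).2
      · subst h
        rw [if_pos (by omega)]
        exact (hp m).2.2.2
      · rw [if_neg (by omega)]
        exact (hpr k m h).1

/-- The functionals of a James system tend to zero on the closed span of its vectors. -/
theorem tendsto_aux {X : Type*} [NormedAddCommGroup X] [NormedSpace ℝ X]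
    (x : ℕ → X) (f : ℕ → X →L[ℝ] ℝ) (L : ℝ) (hL : 0 < L) (hfL : ∀ n, ‖f n‖ ≤ L)
    (hfx : ∀ m n, f m (x n) = if m < n then 1 else 0) (u : X)
    (hu : u ∈ closure (Submodule.span ℝ (Set.range x) : Set X)) (ε : ℝ) (hε : 0 < ε) :
    ∃ k, |f (k + 1) u| < ε := by
  obtain ⟨w, hw, hwu⟩ := Metric.mem_closure_iff.1 hu (ε / L) (by positivity)
  have hev : ∃ N, ∀ k ≥ N, f k w = 0 := by
    refine Submodule.span_induction (p := fun w _ => ∃ N, ∀ k ≥ N, f k w = 0) ?_ ?_ ?_ ?_ hw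
    · rintro _ ⟨n, rfl⟩
      refine ⟨n, fun k hk => ?_⟩
      rw [hfx, if_neg (by omega)]
    · exact ⟨0, fun k _ => map_zero _⟩
    · rintro a b _ _ ⟨N, hN⟩ ⟨M, hM⟩
      refine ⟨max N M, fun k hk => ?_⟩
      rw [map_add, hN k (le_trans (le_max_left _ _) hk), hM k (le_trans (le_max_right _ _) hk),
        add_zero]
    · rintro t a _ ⟨N, hN⟩
      refine ⟨N, fun k hk => ?_⟩
      rw [map_smul, hN k hk, smul_zero]
  obtain ⟨N, hN⟩ := hev
  refine ⟨N, ?_⟩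
  have h1 : f (N + 1) u = f (N + 1) (u - w) := by
    rw [map_sub, hN (N + 1) (Nat.le_succ N), sub_zero]
  rw [h1]
  calc |f (N + 1) (u - w)| = ‖f (N + 1) (u - w)‖ := rfl
    _ ≤ ‖f (N + 1)‖ * ‖u - w‖ := (f (N + 1)).le_opNorm _
    _ ≤ L * ‖u - w‖ := by gcongr; exact hfL (N + 1)
    _ < L * (ε / L) := by
      rw [dist_eq_norm] at hwu
      gcongr
    _ = ε := by field_simp

end Pool.Agent.Work.MP_6c2b6a_an
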