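import Pool.Agent.Work.MP_6c2b6a_an.James

set_option autoImplicit false

/-!
# The maximally monotone operator attached to a sequence of James type
-/

namespace Pool.Agent.Work.MP_6c2b6a_an

theorem op_aux {X : Type*} [NormedAddCommGroup X] [NormedSpace ℝ X]
    (x : ℕ → X) (f : ℕ → X →L[ℝ] ℝ) (K L : ℝ) (hK : 0 < K) (hL : 0 < L) (hx0 : x 0 = 0)
    (hxK : ∀ n, ‖x n‖ ≤ K) (hfL : ∀ n, ‖f n‖ ≤ L)
    (hfx : ∀ m n, f m (x n) = if m < n then 1 else 0) :
      ∃ A : Set (X × (X →L[ℝ] ℝ)),
        (∀ p ∈ A, ∀ q ∈ A, 0 ≤ (p.2 - q.2) (p.1 - q.1)) ∧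
        (∀ z : X × (X →L[ℝ] ℝ), (∀ p ∈ A, 0 ≤ (z.2 - p.2) (z.1 - p.1)) → z ∈ A) ∧
        ∃ (w : X) (xs : X →L[ℝ] ℝ) (Φ : (X →L[ℝ] ℝ) →L[ℝ] ℝ) (c : ℝ), 0 < c ∧
          (∀ p ∈ A, -1 ≤ (p.2 - xs) (p.1 - w)) ∧ (∀ p ∈ A, c ≤ ‖p.2 - xs‖) ∧
          ∀ p ∈ A, 1 ≤ (p.2 - xs) p.1 - Φ (p.2 - xs) := by
  -- closed span
  set Y : Submodule ℝ X := (Submodule.span ℝ (Set.range x)).topologicalClosure with hY
  have hYcl : IsClosed (Y : Set X) := Submodule.isClosed_topologicalClosure _
  have hxY : ∀ n, x n ∈ Y := fun n =>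
    Submodule.le_topologicalClosure _ (Submodule.subset_span ⟨n, rfl⟩)
  let Z : Set (X × (X →L[ℝ] ℝ)) := {z | z.1 ∈ Y ∧ ∀ k, f k z.1 = z.2 (x (k + 1)) + z.2 (x k)}
  let S : Set (Set (X × (X →L[ℝ] ℝ))) := {M | (0, 0) ∈ M ∧ M ⊆ Z ∧
    ∀ p ∈ M, ∀ q ∈ M, 0 ≤ (p.2 - q.2) (p.1 - q.1)}
  have hS0 : {((0 : X), (0 : X →L[ℝ] ℝ))} ∈ S := by
    refine ⟨rfl, ?_, ?_⟩
    · intro p hp
      rw [Set.mem_singleton_iff] at hp
      subst hp
      exact ⟨Y.zero_mem, fun k => by simp⟩
    · intro p hp q hq
      rw [Set.mem_singleton_iff] at hp hq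
      subst hp
      subst hq
      simp
  obtain ⟨M, _, hM⟩ := zorn_subset_nonempty S (by
    intro c hc hchain hne
    refine ⟨⋃₀ c, ⟨?_, ?_, ?_⟩, fun s hs => Set.subset_sUnion_of_mem hs⟩
    · obtain ⟨s, hs⟩ := hne
      exact ⟨s, hs, (hc hs).1⟩
    · rintro p ⟨s, hs, hp⟩
      exact (hc hs).2.1 hp
    · rintro p ⟨s, hs, hp⟩ q ⟨t, ht, hq⟩
      rcases hchain.total hs ht with h | h
      · exact (hc ht).2.2 p (h hp) q hq
      · exact (hc hs).2.2 p hp q (h hq)) _ hS0
  have hM0 : ((0 : X), (0 : X →L[ℝ] ℝ)) ∈ M := hM.prop.1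
  have hMZ : ∀ p ∈ M, p ∈ Z := fun p hp => hM.prop.2.1 hp
  have hMmon := hM.prop.2.2
  have hq0 : ∀ p ∈ M, 0 ≤ p.2 p.1 := by
    intro p hp
    have := hMmon p hp _ hM0
    simpa using this
  -- maximality inside Z
  have hmax : ∀ z ∈ Z, (∀ p ∈ M, 0 ≤ (z.2 - p.2) (z.1 - p.1)) → z ∈ M := by
    intro z hz hzM
    have hins : insert z M ∈ S := by
      refine ⟨Set.mem_insert_of_mem _ hM0, ?_, ?_⟩
      · intro p hp
        rcases Set.mem_insert_iff.1 hp with h | h
        · rw [h]; exact hz
        · exact hMZ p h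
      · intro p hp q hq
        rcases Set.mem_insert_iff.1 hp with h | h <;> rcases Set.mem_insert_iff.1 hq with h' | h'
        · rw [h, h']; simp
        · rw [h]; exact hzM q h'
        · rw [h']
          have := hzM p h
          simp only [sub_apply, map_sub] at this ⊢
          linarith
        · exact hMmon p h q h'
    exact hM.le_of_ge hins (Set.subset_insert _ _) (Set.mem_insert _ _)
  -- the range is contained in a subspace at positive distance from `f 0`
  let W : Submodule ℝ (X →L[ℝ] ℝ) :=
    { carrier := {g | ∃ u ∈ Y, ∀ k, f k u = g (x (k + 1)) + g (x k)}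
      add_mem' := by
        rintro g g' ⟨u, hu, h1⟩ ⟨u', hu', h2⟩
        refine ⟨u + u', Y.add_mem hu hu', fun k => ?_⟩
        simp only [map_add, add_apply, h1 k, h2 k]
        ring
      zero_mem' := ⟨0, Y.zero_mem, fun k => by simp⟩
      smul_mem' := by
        rintro r g ⟨u, hu, h1⟩
        refine ⟨r • u, Y.smul_mem r hu, fun k => ?_⟩
        simp only [map_smul, smul_apply, h1 k, smul_eq_mul]
        ring }
  have hdist : ∀ g ∈ W, 1 / K ≤ ‖g - f 0‖ := by
    rintro g ⟨u, hu, hg⟩
    by_contra hcon
    have h2 := not_le.1 hcon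
    set δ := ‖g - f 0‖ with hδ
    have hδK : 2 * K * δ < 2 := by
      have : K * δ < K * (1 / K) := by gcongr
      have h3 : K * (1 / K) = 1 := by field_simp
      linarith
    obtain ⟨k, hk⟩ := tendsto_aux x f L hL hfL hfx u hu (2 - 2 * K * δ) (by linarith)
    have h3 := hg (k + 1)
    have e1 := hfx 0 (k + 1 + 1)
    have e2 := hfx 0 (k + 1)
    rw [if_pos (by omega)] at e1 e2
    have h4 : (g - f 0) (x (k + 1 + 1) + x (k + 1)) = f (k + 1) u - 2 := by
      simp only [sub_apply, map_add, e1, e2]
      linarith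
    have h5 : ‖(g - f 0) (x (k + 1 + 1) + x (k + 1))‖ ≤ δ * (K + K) := by
      refine le_trans ((g - f 0).le_opNorm _) ?_
      gcongr
      exact le_trans (norm_add_le _ _) (add_le_add (hxK _) (hxK _))
    rw [h4, Real.norm_eq_abs] at h5
    have h6 := neg_le_of_abs_le h5
    have h7 := (abs_lt.1 hk).2
    linarith
  have hMW : ∀ p ∈ M, p.2 ∈ W := fun p hp => ⟨p.1, (hMZ p hp).1, (hMZ p hp).2⟩
  have hf0 : f 0 ∉ W.topologicalClosure := by
    intro hmem
    have h1 : f 0 ∈ closure (W : Set (X →L[ℝ] ℝ)) := hmem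
    obtain ⟨g, hg, hgf⟩ := Metric.mem_closure_iff.1 h1 (1 / K) (by positivity)
    have h2 := hdist g hg
    rw [dist_comm, dist_eq_norm] at hgf
    linarith
  obtain ⟨E, hE1, hE2⟩ := sep_one W.topologicalClosure (Submodule.isClosed_topologicalClosure _) (f 0) hf0
  refine ⟨M, hMmon, ?_, -x 1, f 0, (2 : ℝ) • E - NormedSpace.inclusionInDoubleDual ℝ X (x 1), 1 / K,
    by positivity, ?_, fun p hp => hdist _ (hMW p hp), ?_⟩
  · intro z hz
    obtain ⟨v, h⟩ := z
    simp only at hz
    -- v lies in Y
    have hvY : v ∈ Y := by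
      by_contra hv
      obtain ⟨ψ, hψ1, hψ2⟩ := sep_one Y hYcl v hv
      have hmem : ∀ t : ℝ, ((0 : X), t • ψ) ∈ M := by
        intro t
        apply hmax
        · refine ⟨Y.zero_mem, fun k => ?_⟩
          simp [hψ1 _ (hxY _)]
        · intro p hp
          have h1 := hq0 p hp
          have h2 := hψ1 p.1 (hMZ p hp).1
          simp only [sub_apply, smul_apply, zero_sub, map_neg, h2, smul_eq_mul]
          linarith
      have h3 := hz _ (hmem (h v + 1))
      simp only [sub_apply, smul_apply, sub_zero, hψ2, smul_eq_mul] at h3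
      linarith
    -- orthogonality relations
    have horth : ∀ k, f k v - h (x (k + 1)) - h (x k) =
        f (k + 1) v - h (x (k + 2)) - h (x (k + 1)) := by
      intro k
      have hmem : ∀ t : ℝ, (t • (x (k + 2) - x k), t • (f k - f (k + 1))) ∈ M := by
        intro t
        apply hmax
        · refine ⟨Y.smul_mem _ (Y.sub_mem (hxY _) (hxY _)), fun j => ?_⟩
          simp only [map_smul, map_sub, smul_apply, sub_apply, hfx, smul_eq_mul]
          rcases lt_trichotomy j k with hjk | hjk | hjk
          · rw [if_pos (by omega), if_pos (by omega), if_neg (by omega), if_neg (by omega),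
              if_neg (by omega), if_neg (by omega)]
            ring
          · rw [if_pos (by omega), if_neg (by omega), if_pos (by omega), if_neg (by omega),
              if_neg (by omega), if_neg (by omega)]
            ring
          · rcases Nat.lt_or_ge (k + 1) j with hj | hj
            · rw [if_neg (by omega), if_neg (by omega), if_pos (by omega), if_pos (by omega),
                if_pos (by omega), if_pos (by omega)]
              ring
            · rw [if_pos (by omega), if_neg (by omega), if_pos (by omega), if_pos (by omega),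
                if_pos (by omega), if_neg (by omega)]
              ring
        · intro p hp
          have h1 := hq0 p hp
          have h2 := (hMZ p hp).2 k
          have h3 := (hMZ p hp).2 (k + 1)
          have e1 := hfx k (k + 2)
          have e2 := hfx k k
          have e3 := hfx (k + 1) (k + 2)
          have e4 := hfx (k + 1) k
          rw [if_pos (by omega)] at e1
          rw [if_neg (by omega)] at e2
          rw [if_pos (by omega)] at e3
          rw [if_neg (by omega)] at e4
          simp only [sub_apply, smul_apply, map_sub, map_smul, smul_eq_mul, e1, e2, e3, e4, h2,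
            h3]
          have e5 : x (k + 1 + 1) = x (k + 2) := rfl
          rw [e5]
          nlinarith
      have hlin : ∀ t : ℝ, 0 ≤ h v - t * ((f k v - f (k + 1) v) + (h (x (k + 2)) - h (x k))) := by
        intro t
        have h1 := hz _ (hmem t)
        have e1 := hfx k (k + 2)
        have e2 := hfx k k
        have e3 := hfx (k + 1) (k + 2)
        have e4 := hfx (k + 1) k
        rw [if_pos (by omega)] at e1
        rw [if_neg (by omega)] at e2
        rw [if_pos (by omega)] at e3
        rw [if_neg (by omega)] at e4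
        simp only [sub_apply, smul_apply, map_sub, map_smul, smul_eq_mul, e1, e2, e3, e4] at h1
        nlinarith
      have hzero : (f k v - f (k + 1) v) + (h (x (k + 2)) - h (x k)) = 0 := by
        by_contra hne
        have h1 := hlin ((h v + 1) / ((f k v - f (k + 1) v) + (h (x (k + 2)) - h (x k))))
        rw [div_mul_cancel₀ _ hne] at h1
        linarith
      linarith
    set c : ℝ := f 0 v - h (x 1) with hc
    have hconst : ∀ k, f k v = c + h (x (k + 1)) + h (x k) := by
      intro k
      induction k with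
      | zero => rw [hx0, map_zero, zero_add]; linarith
      | succ k ih =>
        have h1 := horth k
        have e5 : x (k + 1 + 1) = x (k + 2) := rfl
        rw [e5]
        linarith
    -- the corrected point
    have hz1Z : (v - (c / 2) • x 1, h + (c / 2) • f 0) ∈ Z := by
      refine ⟨Y.sub_mem hvY (Y.smul_mem _ (hxY 1)), fun k => ?_⟩
      have h1 := hconst k
      simp only [map_sub, map_smul, add_apply, smul_apply, smul_eq_mul, hfx, h1]
      rcases Nat.eq_zero_or_pos k with hk | hk
      · subst hk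
        simp
        ring
      · rw [if_neg (by omega), if_pos (by omega), if_pos (by omega)]
        ring
    have hf01 : f 0 (x 1) = 1 := by rw [hfx, if_pos (by omega)]
    have hz1 : (v - (c / 2) • x 1, h + (c / 2) • f 0) ∈ M := by
      apply hmax _ hz1Z
      intro p hp
      have h1 := hz p hp
      have h2 := (hMZ p hp).2 0
      rw [hx0, map_zero, add_zero, zero_add] at h2
      simp only [sub_apply, add_apply, smul_apply, map_sub, map_smul, smul_eq_mul, hf01, h2]
        at h1 ⊢
      have h3 : f 0 v = c + h (x 1) := by rw [hc]; ring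
      rw [h3]
      nlinarith [sq_nonneg c]
    have hc0 : c = 0 := by
      have h1 := hz _ hz1
      simp only [sub_apply, add_apply, smul_apply, map_sub, map_smul, smul_eq_mul, hf01]
        at h1
      have h4 : c ^ 2 ≤ 0 := by nlinarith
      exact pow_eq_zero_iff (two_ne_zero) |>.1 (le_antisymm h4 (sq_nonneg c))
    rw [hc0] at hz1
    simpa using hz1
  · intro p hp
    have h1 := hq0 p hp
    have h2 := (hMZ p hp).2 0
    have h3 := hfx 0 1
    rw [hx0, map_zero, zero_add, add_zero] at h2
    simp only [sub_apply, map_sub, map_neg]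
    simp at h3
    linarith
  · intro p hp
    have h1 := hq0 p hp
    have h2 := (hMZ p hp).2 0
    have h3 := hfx 0 1
    have h4 := hE1 _ (Submodule.le_topologicalClosure _ (hMW p hp))
    rw [hx0, map_zero, zero_add, add_zero] at h2
    have h5 : ∀ g : X →L[ℝ] ℝ, NormedSpace.inclusionInDoubleDual ℝ X (x 1) g = g (x 1) := fun g => rfl
    simp only [sub_apply, smul_apply, map_sub, smul_eq_mul, h5, h4, hE2]
    simp at h3
    linarith

end Pool.Agent.Work.MP_6c2b6a_an
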