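import Pool.Agent.Work.MP_6c2b6a_an.Defs
import Pool.Agent.Work.MP_6c2b6a_an.Op

set_option autoImplicit false

namespace Pool.Agent.Work.MP_6c2b6a_an

open Filter Topology

theorem norm_le_dualNorm {X : Type*} [NormedAddCommGroup X] [NormedSpace ℝ X] {N : Seminorm ℝ X} {m M : ℝ}
    (hm : 0 < m) (hm' : ∀ x, m * ‖x‖ ≤ N x) (hM : 0 < M) (hM' : ∀ x, N x ≤ M * ‖x‖) (f : StrongDual ℝ X) :
    ‖f‖ ≤ M * dualNorm N f := by
  have hbdd : BddAbove {r | ∃ x, N x ≤ 1 ∧ r = |f x|} := by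
    refine ⟨‖f‖ * (1 / m), ?_⟩
    rintro r ⟨x, hx, rfl⟩
    have h1 : ‖x‖ ≤ 1 / m := by
      rw [le_div_iff₀ hm, mul_comm]
      exact (hm' x).trans hx
    calc |f x| = ‖f x‖ := rfl
      _ ≤ ‖f‖ * ‖x‖ := f.le_opNorm x
      _ ≤ ‖f‖ * (1 / m) := by gcongr
  have h0 : 0 ≤ dualNorm N f := by
    refine le_csSup_of_le hbdd ⟨0, by simp, rfl⟩ ?_
    exact abs_nonneg _
  refine f.opNorm_le_bound (by positivity) fun x => ?_
  rcases eq_or_ne x 0 with rfl | hx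
  · simp
  · have hx' : 0 < ‖x‖ := norm_pos_iff.2 hx
    have h1 : N ((M * ‖x‖)⁻¹ • x) ≤ 1 := by
      rw [map_smul_eq_mul, Real.norm_eq_abs, abs_of_pos (by positivity)]
      rw [inv_mul_le_iff₀ (by positivity), mul_one]
      exact hM' x
    have h2 : |f ((M * ‖x‖)⁻¹ • x)| ≤ dualNorm N f := le_csSup hbdd ⟨_, h1, rfl⟩
    rw [map_smul, smul_eq_mul, abs_mul, abs_of_pos (by positivity : (0 : ℝ) < (M * ‖x‖)⁻¹),
      inv_mul_le_iff₀ (by positivity)] at h2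
    calc ‖f x‖ = |f x| := rfl
      _ ≤ M * ‖x‖ * dualNorm N f := h2
      _ = M * dualNorm N f * ‖x‖ := by ring

theorem main {X : Type*} [NormedAddCommGroup X] [NormedSpace ℝ X] [CompleteSpace X]
    (hX : ¬ Function.Surjective (NormedSpace.inclusionInDoubleDual ℝ X)) :
    ∃ A : Set (X × StrongDual ℝ X), IsMaxMonotone A ∧ ¬ TypeBR (‖·‖) (‖·‖) A ∧
      (∀ N : Seminorm ℝ X, IsEquivNorm N → ¬ TypeBR N (dualNorm N) A) ∧ ¬ TypeD A := by
  obtain ⟨e, he⟩ : ∃ e : (X →L[ℝ] ℝ) →L[ℝ] ℝ, ∀ x : X, ∃ f : X →L[ℝ] ℝ, e f ≠ f x := by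
    by_contra hcon
    push Not at hcon
    apply hX
    intro e
    obtain ⟨x, hx⟩ := hcon e
    exact ⟨x, by
      ext f
      exact (hx f).symm⟩
  obtain ⟨x, f, K, L, hK, hL, hx0, hxK, hfL, hfx⟩ := james_aux e he
  obtain ⟨A, hA1, hA2, w, xs, Φ, c, hc, h1, h2, h3⟩ := op_aux x f K L hK hL hx0 hxK hfL hfx
  have hsymm : ∀ p : X × StrongDual ℝ X, (xs - p.2) (w - p.1) = (p.2 - xs) (p.1 - w) := by
    intro p
    simp only [sub_apply, map_sub]
    ring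
  -- no norm for which the range stays away from `xs` gives type (BR)
  have key : ∀ (N : X → ℝ) (N' : StrongDual ℝ X → ℝ) (b : ℝ), 0 < b → (∀ p ∈ A, b ≤ N' (xs - p.2)) →
      ¬ TypeBR N N' A := by
    intro N N' b hb hN' hBR
    obtain ⟨p, hp, -, h4⟩ := hBR w xs (2 / b) b (by positivity) hb ⟨-1, by
      rw [div_mul_cancel₀ _ hb.ne']
      norm_num, fun p hp => by
      rw [hsymm]
      exact h1 p hp⟩
    exact absurd h4 (not_lt.2 (hN' p hp))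
  refine ⟨A, ⟨hA1, ?_⟩, ?_, ?_, ?_⟩
  · intro B hB hAB z hz
    exact hA2 z fun p hp => hB z hz p (hAB hp)
  · refine key _ _ c hc fun p hp => ?_
    show c ≤ ‖xs - p.2‖
    rw [norm_sub_rev]
    exact h2 p hp
  · rintro N ⟨⟨m, hm, hm'⟩, M, hM'⟩
    have hM'' : ∀ x, N x ≤ max M 1 * ‖x‖ := fun x =>
      (hM' x).trans (mul_le_mul_of_nonneg_right (le_max_left _ _) (norm_nonneg _))
    have hMpos : (0 : ℝ) < max M 1 := lt_of_lt_of_le one_pos (le_max_right _ _)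
    refine key _ _ (c / max M 1) (by positivity) fun p hp => ?_
    rw [div_le_iff₀ hMpos, mul_comm]
    refine le_trans ?_ (norm_le_dualNorm hm hm' hMpos hM'' (xs - p.2))
    rw [norm_sub_rev]
    exact h2 p hp
  · intro hD
    obtain ⟨F, hF, ⟨R, hR⟩, -, h4⟩ := hD Φ xs fun p hp => zero_le_one.trans (h3 p hp)
    have h5 : ∀ᶠ p in F, dist p.2 xs < c := h4.eventually (Metric.ball_mem_nhds xs hc)
    obtain ⟨p, ⟨hp, -⟩, h6⟩ := (hR.and h5).exists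
    rw [dist_eq_norm] at h6
    exact absurd h6 (not_lt.2 (h2 p hp))

end Pool.Agent.Work.MP_6c2b6a_an
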